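import Pool.Agent.P.MP_09c11a_nt.W.All

/-! An explicit power saving for the valuation of `a ^ (p - 1) - b ^ (p - 1)`. -/

theorem Pool.Agent.Results.MP_09c11a_nt.ValuationBound.result :
    ∀ a b : ℕ, 0 < b → b < a → a.Coprime b → ∃ P₀ : ℕ, ∀ p : ℕ, p.Prime → P₀ < p →
      (padicValNat p (a ^ (p - 1) - b ^ (p - 1)) : ℝ) ≤ (p : ℝ) ^ (0.69 : ℝ) :=
  Pool.Agent.P.MP_09c11a_nt.W.h_FINAL
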